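import Mathlib

/-!
Tools on Hausdorff dimension: localisation, products with an interval, flat zeros.
-/

set_option autoImplicit false

open Filter Topology Set MeasureTheory Metric
open scoped ENNReal NNReal

namespace Pool.Agent.MP_6357da_an.H36

theorem dimH_image_le_of_local {X Y : Type*} [EMetricSpace X] [EMetricSpace Y]
    [SecondCountableTopology X] {f : X → Y} {s : Set X} {c : ℝ≥0∞}
    (h : ∀ x ∈ s, ∃ t ∈ 𝓝[s] x, dimH (f '' t) ≤ c) : dimH (f '' s) ≤ c := by
  choose! t htn hC using h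
  rcases TopologicalSpace.countable_cover_nhdsWithin htn with ⟨u, hus, huc, huU⟩
  refine (dimH_mono (image_mono huU)).trans ?_
  rw [image_iUnion₂, dimH_bUnion huc]
  exact iSup₂_le fun x hx => hC x (hus hx)

theorem dimH_le_of_local {X : Type*} [EMetricSpace X] [SecondCountableTopology X] {s : Set X}
    {c : ℝ≥0∞} (h : ∀ x ∈ s, ∃ t ∈ 𝓝[s] x, dimH t ≤ c) : dimH s ≤ c := by
  simpa using dimH_image_le_of_local (f := id) (s := s) (c := c) (by simpa using h)

theorem hausdorff_prod_zero (R : Set ℝ) {d : ℝ} (hd : 0 < d) (hR : μH[d] R = 0) :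
    μH[d + 1] (Icc (0 : ℝ) 1 ×ˢ R) = 0 := by
  have hcov : ∀ N : ℕ, ∃ t : ℕ → Set ℝ, R ⊆ ⋃ n, t n ∧
      (∀ n, ediam (t n) ≤ ENNReal.ofReal (1 / ((N : ℝ) + 1))) ∧
      ∑' n, ediam (t n) ^ d ≤ ENNReal.ofReal (1 / ((N : ℝ) + 1)) := by
    intro N
    have hpos : 0 < ENNReal.ofReal (1 / ((N : ℝ) + 1)) := ENNReal.ofReal_pos.2 (by positivity)
    rw [Measure.hausdorffMeasure_apply] at hR
    have h1 := (le_iSup₂_of_le (f := fun (r : ℝ≥0∞) (_ : 0 < r) =>
      ⨅ (t : ℕ → Set ℝ) (_ : R ⊆ ⋃ n, t n) (_ : ∀ n, ediam (t n) ≤ r),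
          ∑' n, ⨆ _ : (t n).Nonempty, ediam (t n) ^ d) _ hpos le_rfl).trans hR.le
    have h2 := h1.trans_lt hpos
    simp only [iInf_lt_iff] at h2
    obtain ⟨t, ht1, ht2, ht3⟩ := h2
    refine ⟨t, ht1, ht2, le_trans (ENNReal.tsum_le_tsum fun n => ?_) ht3.le⟩
    rcases (t n).eq_empty_or_nonempty with h | h
    · simp [h, ENNReal.zero_rpow_of_pos hd]
    · simp [h]
  choose t ht1 ht2 ht3 using hcov
  set η : ℕ → ℕ → ℝ := fun N n => min (1 / ((N : ℝ) + 1)) ((1 / ((N : ℝ) + 1) * (1 / 2) ^ n) ^ d⁻¹)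
    with hη
  have hη0 : ∀ N n, 0 < η N n := fun N n => lt_min (by positivity) (by positivity)
  have hfin : ∀ N n, ediam (t N n) ≠ ⊤ := fun N n => ((ht2 N n).trans_lt ENNReal.ofReal_lt_top).ne
  set l : ℕ → ℕ → ℝ := fun N n => max (ediam (t N n)).toReal (η N n) with hl
  have hl0 : ∀ N n, 0 < l N n := fun N n => (hη0 N n).trans_le (le_max_right _ _)
  have hl1 : ∀ N n, l N n ≤ 1 / ((N : ℝ) + 1) := fun N n =>
    max_le (ENNReal.toReal_le_of_le_ofReal (by positivity) (ht2 N n)) (min_le_left _ _)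
  have hl1' : ∀ N n, l N n ≤ 1 := fun N n => (hl1 N n).trans (by
    rw [div_le_one (by positivity)]
    have : (0 : ℝ) ≤ N := Nat.cast_nonneg _
    linarith)
  have hl2 : ∀ N n, ediam (t N n) ≤ ENNReal.ofReal (l N n) := fun N n => by
    rw [← ENNReal.ofReal_toReal (hfin N n)]
    exact ENNReal.ofReal_le_ofReal (le_max_left _ _)
  have hl3 : ∀ N n, ENNReal.ofReal (l N n ^ d) ≤
      ediam (t N n) ^ d + ENNReal.ofReal (1 / ((N : ℝ) + 1) * (1 / 2) ^ n) := fun N n => by
    rcases le_total (ediam (t N n)).toReal (η N n) with h | h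
    · refine le_add_left (ENNReal.ofReal_le_ofReal ?_)
      simp only [hl, max_eq_right h]
      calc η N n ^ d ≤ ((1 / ((N : ℝ) + 1) * (1 / 2) ^ n) ^ d⁻¹) ^ d :=
            Real.rpow_le_rpow (hη0 N n).le (min_le_right _ _) hd.le
        _ = _ := Real.rpow_inv_rpow (by positivity) hd.ne'
    · refine le_add_right (le_of_eq ?_)
      simp only [hl, max_eq_left h]
      rw [← ENNReal.ofReal_rpow_of_nonneg ENNReal.toReal_nonneg hd.le,
        ENNReal.ofReal_toReal (hfin N n)]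
  have hdiam : ∀ N n (j : ℕ), ediam (Icc (j * l N n) ((j + 1) * l N n) ×ˢ t N n) ≤
      ENNReal.ofReal (l N n) := by
    intro N n j
    refine ediam_le fun p hp q hq => ?_
    rw [Prod.edist_eq]
    refine max_le ?_ ((edist_le_ediam_of_mem hp.2 hq.2).trans (hl2 N n))
    refine (edist_le_ediam_of_mem hp.1 hq.1).trans (le_of_eq ?_)
    rw [Real.ediam_Icc]
    congr 1
    ring
  have key := Measure.hausdorffMeasure_le_liminf_tsum
    (ι := fun N : ℕ => Σ n : ℕ, Fin (⌊1 / l N n⌋₊ + 1)) (d + 1) (Icc (0 : ℝ) 1 ×ˢ R)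
    (l := atTop) (fun N => ENNReal.ofReal (1 / ((N : ℝ) + 1)))
    (by simpa using ENNReal.tendsto_ofReal tendsto_one_div_add_atTop_nhds_zero_nat)
    (fun N i => Icc ((i.2 : ℕ) * l N i.1) (((i.2 : ℕ) + 1) * l N i.1) ×ˢ t N i.1)
    (Eventually.of_forall fun N i => (hdiam N i.1 i.2).trans (ENNReal.ofReal_le_ofReal (hl1 N _)))
    (Eventually.of_forall fun N p hp => by
      obtain ⟨n, hn⟩ := mem_iUnion.1 (ht1 N hp.2)
      have h0 := hl0 N n
      have hj : ⌊p.1 / l N n⌋₊ < ⌊1 / l N n⌋₊ + 1 :=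
        Nat.lt_succ_of_le (Nat.floor_le_floor (div_le_div_of_nonneg_right hp.1.2 h0.le))
      refine mem_iUnion.2 ⟨⟨n, ⟨_, hj⟩⟩, ⟨?_, ?_⟩, hn⟩
      · have := Nat.floor_le (div_nonneg hp.1.1 h0.le)
        rwa [le_div_iff₀ h0] at this
      · have := (Nat.lt_floor_add_one (p.1 / l N n)).le
        rwa [div_le_iff₀ h0] at this)
  refine le_antisymm (key.trans ?_) zero_le
  have hb : ∀ N : ℕ, ∑' i : (Σ n : ℕ, Fin (⌊1 / l N n⌋₊ + 1)),
      ediam (Icc ((i.2 : ℕ) * l N i.1) (((i.2 : ℕ) + 1) * l N i.1) ×ˢ t N i.1) ^ (d + 1) ≤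
      ENNReal.ofReal (6 * (1 / ((N : ℝ) + 1))) := by
    intro N
    rw [ENNReal.tsum_sigma']
    have h1 : ∀ n, ∑' j : Fin (⌊1 / l N n⌋₊ + 1),
        ediam (Icc ((j : ℕ) * l N n) (((j : ℕ) + 1) * l N n) ×ˢ t N n) ^ (d + 1) ≤
        2 * (ediam (t N n) ^ d + ENNReal.ofReal (1 / ((N : ℝ) + 1) * (1 / 2) ^ n)) := by
      intro n
      have h0 := hl0 N n
      calc _ ≤ ∑' _j : Fin (⌊1 / l N n⌋₊ + 1), ENNReal.ofReal (l N n) ^ (d + 1) :=
            ENNReal.tsum_le_tsum fun j => ENNReal.rpow_le_rpow (hdiam N n j) (by linarith)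
        _ = ENNReal.ofReal (((⌊1 / l N n⌋₊ + 1 : ℕ) : ℝ) * l N n ^ (d + 1)) := by
            rw [tsum_fintype, Finset.sum_const, Finset.card_univ, Fintype.card_fin, nsmul_eq_mul,
              ENNReal.ofReal_mul (Nat.cast_nonneg _), ENNReal.ofReal_natCast,
              ENNReal.ofReal_rpow_of_pos h0]
        _ ≤ ENNReal.ofReal (2 * l N n ^ d) := by
            refine ENNReal.ofReal_le_ofReal ?_
            have h2 : (⌊1 / l N n⌋₊ : ℝ) * l N n ≤ 1 := by
              have := Nat.floor_le (div_nonneg zero_le_one h0.le)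
              rwa [le_div_iff₀ h0] at this
            rw [Real.rpow_add_one h0.ne']
            push_cast
            have h3 : 0 ≤ l N n ^ d := by positivity
            have h4 := hl1' N n
            nlinarith
        _ ≤ _ := by
            rw [ENNReal.ofReal_mul (by norm_num), ENNReal.ofReal_ofNat]
            exact mul_le_mul_right (hl3 N n) _
    refine (ENNReal.tsum_le_tsum h1).trans ?_
    rw [ENNReal.tsum_mul_left, ENNReal.tsum_add,
      ← ENNReal.ofReal_tsum_of_nonneg (fun n => by positivity)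
        (summable_geometric_two.mul_left _), tsum_mul_left, tsum_geometric_two]
    calc _ ≤ 2 * (ENNReal.ofReal (1 / ((N : ℝ) + 1)) + ENNReal.ofReal (1 / ((N : ℝ) + 1) * 2)) := by
          gcongr
          exact ht3 N
      _ = _ := by
          rw [← ENNReal.ofReal_add (by positivity) (by positivity), ← ENNReal.ofReal_ofNat 2,
            ← ENNReal.ofReal_mul (by norm_num)]
          congr 1
          ring
  have hlim : Tendsto (fun N : ℕ => ENNReal.ofReal (6 * (1 / ((N : ℝ) + 1)))) atTop (𝓝 0) := by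
    simpa using ENNReal.tendsto_ofReal (tendsto_one_div_add_atTop_nhds_zero_nat.const_mul (6 : ℝ))
  exact (liminf_le_liminf (Eventually.of_forall hb)).trans hlim.liminf_eq.le

theorem dimH_Icc_prod_le (R : Set ℝ) : dimH (Icc (0 : ℝ) 1 ×ˢ R) ≤ 1 + dimH R := by
  refine le_of_forall_gt_imp_ge_of_dense fun D hD => ?_
  rcases eq_or_ne D ⊤ with rfl | hD'
  · exact le_top
  lift D to ℝ≥0 using hD'
  have h1 : (1 : ℝ≥0) < D := by
    have : (1 : ℝ≥0∞) < D := lt_of_le_of_lt le_self_add hD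
    exact_mod_cast this
  have h2 : dimH R < ((D - 1 : ℝ≥0) : ℝ≥0∞) := by
    rw [ENNReal.coe_sub, ENNReal.coe_one]
    exact lt_tsub_iff_left.2 hD
  have h3 := hausdorff_prod_zero R (d := ((D - 1 : ℝ≥0) : ℝ))
    (by exact_mod_cast tsub_pos_of_lt h1) (hausdorffMeasure_of_dimH_lt h2)
  refine dimH_le_of_hausdorffMeasure_ne_top ?_
  rw [NNReal.coe_sub h1.le, NNReal.coe_one, sub_add_cancel] at h3
  rw [h3]
  exact ENNReal.zero_ne_top

/-- A function flat to order `k` at `x` is `O(|y - x| ^ k)`, uniformly on a compact convex set. -/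
theorem flat_bound {F : Type} [NormedAddCommGroup F] [NormedSpace ℝ F] {K : Set F}
    (hK : IsCompact K) (hc : Convex ℝ K) (k : ℕ) :
    ∀ {G : Type} [NormedAddCommGroup G] [NormedSpace ℝ G] (f : F → G),
      (∀ x ∈ K, ContDiffAt ℝ k f x) → ∃ C : ℝ, 0 ≤ C ∧ ∀ x ∈ K,
        (∀ i < k, iteratedFDeriv ℝ i f x = 0) → ∀ y ∈ K, ‖f y‖ ≤ C * ‖y - x‖ ^ k := by
  induction k with
  | zero =>
    intro G _ _ f hf
    obtain ⟨C, hC⟩ := hK.exists_bound_of_continuousOn
      (f := f) fun x hx => (hf x hx).continuousAt.continuousWithinAt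
    refine ⟨max C 0, le_max_right _ _, fun x _ _ y hy => ?_⟩
    simpa using Or.inl (hC y hy)
  | succ k ih =>
    intro G _ _ f hf
    obtain ⟨C, hC0, hC⟩ := ih (fderiv ℝ f) fun x hx => (hf x hx).fderiv_right (by push_cast; rfl)
    refine ⟨C, hC0, fun x hx hflat y hy => ?_⟩
    have hfx : f x = 0 := by
      have := hflat 0 (by omega)
      rw [← norm_eq_zero, norm_iteratedFDeriv_zero, norm_eq_zero] at this
      exact this
    have h1 := hC x hx fun i hi => by
      rw [← norm_eq_zero, norm_iteratedFDeriv_fderiv, norm_eq_zero]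
      exact hflat _ (by omega)
    have hseg : segment ℝ x y ⊆ K := hc.segment_subset hx hy
    have h2 := (convex_segment x y).norm_image_sub_le_of_norm_fderiv_le (𝕜 := ℝ) (f := f)
      (C := C * ‖y - x‖ ^ k)
      (fun z hz => (hf z (hseg hz)).differentiableAt (by simp))
      (fun z hz => (h1 z (hseg hz)).trans (by
        have : ‖z - x‖ ≤ ‖y - x‖ := by
          rw [← dist_eq_norm, ← dist_eq_norm, dist_comm z, dist_comm y]
          exact (le_add_of_nonneg_right dist_nonneg).trans (dist_add_dist_of_mem_segment hz).le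
        gcongr))
      (left_mem_segment ℝ x y) (right_mem_segment ℝ x y)
    rw [hfx, sub_zero] at h2
    rw [pow_succ, ← mul_assoc]
    exact h2

/-- If the derivative of `h` is dominated by `w`, then on the set where `w` is flat to order `k`
the function `h` divides the dimension by `k + 1`. -/
theorem dimH_image_flat {F G : Type} [NormedAddCommGroup F] [NormedSpace ℝ F] [ProperSpace F]
    [NormedAddCommGroup G] [NormedSpace ℝ G] {U : Set F} (hU : IsOpen U) (k : ℕ) (w : F → G)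
    (hw : ∀ x ∈ U, ContDiffAt ℝ k w x) (h : F → ℝ) (hh : ∀ x ∈ U, DifferentiableAt ℝ h x)
    {C : ℝ} (hC0 : 0 ≤ C) (hC : ∀ x ∈ U, ‖fderiv ℝ h x‖ ≤ C * ‖w x‖) {S : Set F} (hSU : S ⊆ U)
    (hS : ∀ x ∈ S, ∀ i < k, iteratedFDeriv ℝ i w x = 0) :
    dimH (h '' S) ≤ dimH S / ((k : ℝ≥0∞) + 1) := by
  have := dimH_image_le_of_locally_holder_on (r := (k : ℝ≥0) + 1) (f := h) (by positivity)
    (s := S) fun x hx => ?_
  · simpa using this
  obtain ⟨r, hr, hrU⟩ := Metric.nhds_basis_closedBall.mem_iff.1 (hU.mem_nhds (hSU hx))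
  obtain ⟨C', hC0', hC'⟩ := flat_bound (isCompact_closedBall x r) (convex_closedBall x r) k w
    fun y hy => hw y (hrU hy)
  refine ⟨(C * C').toNNReal, S ∩ closedBall x r,
    inter_mem_nhdsWithin _ (closedBall_mem_nhds x hr), fun a ha b hb => ?_⟩
  have hseg : segment ℝ b a ⊆ closedBall x r := (convex_closedBall x r).segment_subset hb.2 ha.2
  have h2 := (convex_segment b a).norm_image_sub_le_of_norm_fderiv_le (𝕜 := ℝ) (f := h)
    (C := C * (C' * ‖a - b‖ ^ k))
    (fun z hz => hh z (hrU (hseg hz)))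
    (fun z hz => (hC z (hrU (hseg hz))).trans (by
      have h3 : ‖z - b‖ ≤ ‖a - b‖ := by
        rw [← dist_eq_norm, ← dist_eq_norm, dist_comm z, dist_comm a]
        exact (le_add_of_nonneg_right dist_nonneg).trans (dist_add_dist_of_mem_segment hz).le
      have h4 := hC' b hb.2 (hS b hb.1) z (hseg hz)
      refine mul_le_mul_of_nonneg_left (h4.trans ?_) hC0
      gcongr))
    (left_mem_segment ℝ b a) (right_mem_segment ℝ b a)
  rw [edist_dist, edist_dist, dist_eq_norm, dist_eq_norm,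
    ENNReal.ofReal_rpow_of_nonneg (norm_nonneg _) (by positivity)]
  change _ ≤ ENNReal.ofReal (C * C') * _
  rw [← ENNReal.ofReal_mul (by positivity)]
  refine ENNReal.ofReal_le_ofReal (h2.trans (le_of_eq ?_))
  have : (((k : ℝ≥0) + 1 : ℝ≥0) : ℝ) = ((k + 1 : ℕ) : ℝ) := by push_cast; rfl
  rw [this, Real.rpow_natCast]
  ring

theorem flat_cases {F G : Type} [NormedAddCommGroup F] [NormedSpace ℝ F]
    [NormedAddCommGroup G] [NormedSpace ℝ G] (w : F → G) (k : ℕ) {x : F} (hx : w x = 0) :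
    (∀ i < k, iteratedFDeriv ℝ i w x = 0) ∨
      ∃ j, j + 1 < k ∧ (∀ i < j + 1, iteratedFDeriv ℝ i w x = 0) ∧
        iteratedFDeriv ℝ (j + 1) w x ≠ 0 := by
  classical
  by_cases h : ∀ i < k, iteratedFDeriv ℝ i w x = 0
  · exact Or.inl h
  right
  push Not at h
  have h0 : iteratedFDeriv ℝ 0 w x = 0 := by
    rw [← norm_eq_zero, norm_iteratedFDeriv_zero, hx, norm_zero]
  have h1 := Nat.find_spec h
  have h2 : Nat.find h ≠ 0 := fun e => h1.2 (e ▸ h0)
  obtain ⟨j, hj⟩ := Nat.exists_eq_succ_of_ne_zero h2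
  rw [hj] at h1
  refine ⟨j, h1.1, fun i hi => ?_, h1.2⟩
  have := Nat.find_min h (m := i) (by omega)
  push Not at this
  exact this (by have := h1.1; omega)

/-- One variable version: the image of the zero set. -/
theorem dimH_image_zero_one {G : Type} [NormedAddCommGroup G] [NormedSpace ℝ G] {U : Set ℝ}
    (hU : IsOpen U) (k : ℕ) (w : ℝ → G) (hw : ∀ x ∈ U, ContDiffAt ℝ k w x) (h : ℝ → ℝ)
    (hh : ∀ x ∈ U, DifferentiableAt ℝ h x) {C : ℝ} (hC0 : 0 ≤ C)
    (hC : ∀ x ∈ U, ‖fderiv ℝ h x‖ ≤ C * ‖w x‖) :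
    dimH (h '' {x ∈ U | w x = 0}) ≤ 1 / ((k : ℝ≥0∞) + 1) := by
  have hsub : {x ∈ U | w x = 0} ⊆ {x ∈ U | ∀ i < k, iteratedFDeriv ℝ i w x = 0} ∪
      ⋃ j, {x ∈ U | j + 1 < k ∧ iteratedFDeriv ℝ j w x = 0 ∧ iteratedFDeriv ℝ (j + 1) w x ≠ 0} := by
    intro x hx
    rcases flat_cases w k hx.2 with h1 | ⟨j, h1, h2, h3⟩
    · exact Or.inl ⟨hx.1, h1⟩
    · exact Or.inr (mem_iUnion.2 ⟨j, hx.1, h1, h2 j (by omega), h3⟩)
  refine (dimH_mono (image_mono hsub)).trans ?_
  rw [image_union, dimH_union, image_iUnion, dimH_iUnion]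
  refine max_le ?_ (iSup_le fun j => ?_)
  · refine (dimH_image_flat hU k w hw h hh hC0 hC (fun x hx => hx.1) (fun x hx => hx.2)).trans ?_
    gcongr
    exact (dimH_mono (subset_univ _)).trans Real.dimH_univ.le
  · refine dimH_image_le_of_local fun x hx => ⟨{x}, ?_, by simp⟩
    obtain ⟨hxU, hj, h0, h1⟩ := hx
    have hd : DifferentiableAt ℝ (iteratedFDeriv ℝ j w) x :=
      ((hw x hxU).iteratedFDeriv_right (m := 1) (i := j)
        (by exact_mod_cast (by omega : 1 + j ≤ k))).differentiableAt (by simp)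
    have hne : deriv (iteratedFDeriv ℝ j w) x ≠ 0 := by
      intro h2
      apply h1
      rw [← norm_eq_zero, ← norm_fderiv_iteratedFDeriv, ← norm_deriv_eq_norm_fderiv, h2, norm_zero]
    have h3 := hd.hasDerivAt.eventually_ne (c := 0) hne
    rw [eventually_nhdsWithin_iff] at h3
    rw [mem_nhdsWithin_iff_eventually]
    filter_upwards [h3] with z hz hzS
    by_contra hc
    exact hz hc hzS.2.2.1

end Pool.Agent.MP_6357da_an.H36
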