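import Pool.Agent.MP_6357da_an.H36.Sard
import Pool.Agent.MP_6357da_an.H27.Defs

/-!
The upper bound `1 + 2 / (m + 1)` for the dimension of the trapped set of a `C^m` flow.
-/

set_option autoImplicit false

open Filter Topology Set MeasureTheory Metric
open scoped ENNReal NNReal

namespace Pool.Agent.MP_6357da_an.H36

open Pool.Agent.MP_6357da_an.H27

theorem det_euclid_two (A : EuclideanSpace ℝ (Fin 2) →L[ℝ] EuclideanSpace ℝ (Fin 2)) :
    A.det = A !₂[1, 0] 0 * A !₂[0, 1] 1 - A !₂[0, 1] 0 * A !₂[1, 0] 1 := by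
  have h0 : (EuclideanSpace.basisFun (Fin 2) ℝ).toBasis 0 = !₂[1, 0] := by
    ext i
    fin_cases i <;> simp
  have h1 : (EuclideanSpace.basisFun (Fin 2) ℝ).toBasis 1 = !₂[0, 1] := by
    ext i
    fin_cases i <;> simp
  rw [ContinuousLinearMap.det, ← LinearMap.det_toMatrix (EuclideanSpace.basisFun (Fin 2) ℝ).toBasis,
    Matrix.det_fin_two]
  simp only [LinearMap.toMatrix_apply, h0, h1]
  simp

/-- The area form. -/
noncomputable def area :
    EuclideanSpace ℝ (Fin 2) →L[ℝ] EuclideanSpace ℝ (Fin 2) →L[ℝ] ℝ :=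
  (EuclideanSpace.proj 0 : EuclideanSpace ℝ (Fin 2) →L[ℝ] ℝ).smulRight (EuclideanSpace.proj 1) -
    (EuclideanSpace.proj 1 : EuclideanSpace ℝ (Fin 2) →L[ℝ] ℝ).smulRight (EuclideanSpace.proj 0)

theorem area_apply (u h : EuclideanSpace ℝ (Fin 2)) : area u h = u 0 * h 1 - u 1 * h 0 := by
  simp [area]

theorem norm_area_le (u : EuclideanSpace ℝ (Fin 2)) : ‖area u‖ ≤ 2 * ‖u‖ := by
  refine ContinuousLinearMap.opNorm_le_bound _ (by positivity) fun h => ?_
  rw [area_apply]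
  have h1 : ∀ (a : EuclideanSpace ℝ (Fin 2)) (i : Fin 2), ‖a i‖ ≤ ‖a‖ :=
    fun a i => PiLp.norm_apply_le a i
  refine (norm_sub_le _ _).trans ?_
  rw [norm_mul, norm_mul]
  have := mul_le_mul (h1 u 0) (h1 h 1) (norm_nonneg _) (norm_nonneg _)
  have := mul_le_mul (h1 u 1) (h1 h 0) (norm_nonneg _) (norm_nonneg _)
  linarith

section
variable {m : ℕ} {g : ℝ → EuclideanSpace ℝ (Fin 2) → EuclideanSpace ℝ (Fin 2)}

/-- The flow as a function of time and space. -/
def unc (g : ℝ → EuclideanSpace ℝ (Fin 2) → EuclideanSpace ℝ (Fin 2)) :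
    ℝ × EuclideanSpace ℝ (Fin 2) → EuclideanSpace ℝ (Fin 2) := fun p => g p.1 p.2

/-- The generating vector field. -/
noncomputable def vf (g : ℝ → EuclideanSpace ℝ (Fin 2) → EuclideanSpace ℝ (Fin 2))
    (x : EuclideanSpace ℝ (Fin 2)) : EuclideanSpace ℝ (Fin 2) :=
  fderiv ℝ (unc g) (0, x) (1, 0)

/-- The space derivative. -/
noncomputable def jac (g : ℝ → EuclideanSpace ℝ (Fin 2) → EuclideanSpace ℝ (Fin 2)) (t : ℝ)
    (x : EuclideanSpace ℝ (Fin 2)) : EuclideanSpace ℝ (Fin 2) →L[ℝ] EuclideanSpace ℝ (Fin 2) :=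
  (fderiv ℝ (unc g) (t, x)).comp (ContinuousLinearMap.inr ℝ ℝ _)

theorem unc_two (hg : IsFlow m g) (hm : 2 ≤ m) : ContDiff ℝ 2 (unc g) :=
  hg.2.2.2.of_le (by exact_mod_cast hm)

theorem unc_diff (hg : IsFlow m g) (hm : 2 ≤ m) : Differentiable ℝ (unc g) :=
  (unc_two hg hm).differentiable (by norm_num)

theorem flow_add (hg : IsFlow m g) (t s : ℝ) (x : EuclideanSpace ℝ (Fin 2)) :
    g (t + s) x = g t (g s x) := by
  rw [hg.2.1]
  rfl

theorem flow_zero (hg : IsFlow m g) (x : EuclideanSpace ℝ (Fin 2)) : g 0 x = x := by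
  rw [hg.1]
  rfl

theorem hasFDerivAt_space (hg : IsFlow m g) (hm : 2 ≤ m) (t : ℝ) (x : EuclideanSpace ℝ (Fin 2)) :
    HasFDerivAt (g t) (jac g t x) x :=
  (unc_diff hg hm (t, x)).hasFDerivAt.comp x (hasFDerivAt_prodMk_right t x)

theorem hasDerivAt_time_zero (hg : IsFlow m g) (hm : 2 ≤ m) (x : EuclideanSpace ℝ (Fin 2)) :
    HasDerivAt (fun s => g s x) (vf g x) 0 := by
  have h := (unc_diff hg hm (0, x)).hasFDerivAt.comp_hasDerivAt (0 : ℝ)
    ((hasDerivAt_id (0 : ℝ)).prodMk (hasDerivAt_const (0 : ℝ) x))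
  exact h

theorem hasDerivAt_time (hg : IsFlow m g) (hm : 2 ≤ m) (x : EuclideanSpace ℝ (Fin 2)) (t : ℝ) :
    HasDerivAt (fun s => g s x) (vf g (g t x)) t := by
  have h := hasDerivAt_time_zero hg hm (g t x)
  rw [← sub_self t] at h
  have h2 := h.comp_sub_const t t
  refine h2.congr_of_eventuallyEq (Eventually.of_forall fun s => ?_)
  simp only
  rw [← flow_add hg, sub_add_cancel]

theorem hasDerivAt_time' (hg : IsFlow m g) (hm : 2 ≤ m) (x : EuclideanSpace ℝ (Fin 2)) (t : ℝ) :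
    HasDerivAt (fun s => g s x) (jac g t x (vf g x)) t := by
  have h := hasDerivAt_time_zero hg hm x
  rw [← sub_self t] at h
  have h2 := h.comp_sub_const t t
  have h3 := hasFDerivAt_space hg hm t (g (t - t) x)
  have h4 := h3.comp_hasDerivAt t h2
  rw [sub_self, flow_zero hg] at h4
  refine h4.congr_of_eventuallyEq (Eventually.of_forall fun s => ?_)
  simp only [Function.comp]
  rw [← flow_add hg, add_sub_cancel]

theorem jac_zero (hg : IsFlow m g) (hm : 2 ≤ m) (x : EuclideanSpace ℝ (Fin 2)) :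
    jac g 0 x = ContinuousLinearMap.id ℝ _ := by
  have h := hasFDerivAt_space hg hm 0 x
  rw [hg.1] at h
  exact h.unique (hasFDerivAt_id x)

theorem continuous_jac (hg : IsFlow m g) (hm : 2 ≤ m) :
    Continuous fun p : ℝ × EuclideanSpace ℝ (Fin 2) => jac g p.1 p.2 :=
  ((unc_two hg hm).continuous_fderiv (by norm_num)).clm_comp continuous_const

theorem contDiff_vf (hg : IsFlow m g) (hm : 2 ≤ m) : ContDiff ℝ 1 (vf g) :=
  (((unc_two hg hm).fderiv_right (m := 1) (by norm_num)).comp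
    (contDiff_const.prodMk contDiff_id)).clm_apply contDiff_const

theorem abs_det_jac (hg : IsFlow m g) (hm : 2 ≤ m) (t : ℝ) (x : EuclideanSpace ℝ (Fin 2)) :
    |(jac g t x).det| = 1 := by
  have hcont : Continuous fun x => |(jac g t x).det| :=
    (ContinuousLinearMap.continuous_det.comp
      ((continuous_jac hg hm).comp (continuous_const.prodMk continuous_id))).abs
  have hl : Function.LeftInverse (g (-t)) (g t) := fun y => by
    rw [← flow_add hg, neg_add_cancel, flow_zero hg]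
  have hr : Function.RightInverse (g (-t)) (g t) := fun y => by
    rw [← flow_add hg, add_neg_cancel, flow_zero hg]
  have h1 : (fun x => ENNReal.ofReal |(jac g t x).det|) =ᵐ[volume] fun _ => 1 := by
    refine ae_eq_of_forall_setLIntegral_eq_of_sigmaFinite
      hcont.measurable.ennreal_ofReal measurable_const fun s hs _ => ?_
    rw [lintegral_abs_det_fderiv_eq_addHaar_image volume hs
      (fun y _ => (hasFDerivAt_space hg hm t y).hasFDerivWithinAt) hl.injective.injOn,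
      image_eq_preimage_of_inverse hl hr, (hg.2.2.1 (-t)).measure_preimage hs.nullMeasurableSet]
    simp
  have h2 : (fun x => |(jac g t x).det|) =ᵐ[volume] fun _ => 1 := by
    filter_upwards [h1] with y hy
    exact ENNReal.ofReal_eq_one.1 hy
  exact congrFun ((hcont.ae_eq_iff_eq volume continuous_const).1 h2) x

theorem div_vf (hg : IsFlow m g) (hm : 2 ≤ m) (x : EuclideanSpace ℝ (Fin 2)) :
    fderiv ℝ (vf g) x !₂[1, 0] 0 + fderiv ℝ (vf g) x !₂[0, 1] 1 = 0 := by
  have hD : Differentiable ℝ (fderiv ℝ (unc g)) :=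
    ((unc_two hg hm).fderiv_right (m := 1) (by norm_num)).differentiable (by norm_num)
  have hsymm := (unc_two hg hm).contDiffAt.isSymmSndFDerivAt (x := (0, x)) (by simp)
  have hv : ∀ h, fderiv ℝ (vf g) x h = fderiv ℝ (fderiv ℝ (unc g)) (0, x) (0, h) (1, 0) := by
    intro h
    have h1 := ((hD (0, x)).hasFDerivAt.comp x (hasFDerivAt_prodMk_right (0 : ℝ) x)).clm_apply
      (hasFDerivAt_const ((1 : ℝ), (0 : EuclideanSpace ℝ (Fin 2))) x)
    have h2 : fderiv ℝ (vf g) x = _ := h1.fderiv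
    rw [h2]
    simp
  have ht : ∀ (h : EuclideanSpace ℝ (Fin 2)) (i : Fin 2),
      HasDerivAt (fun t => jac g t x h i) (fderiv ℝ (vf g) x h i) 0 := by
    intro h i
    have h0 : HasDerivAt (fun t : ℝ => (t, x)) ((1 : ℝ), (0 : EuclideanSpace ℝ (Fin 2))) 0 :=
      (hasDerivAt_id (0 : ℝ)).prodMk (hasDerivAt_const (0 : ℝ) x)
    have h00 : HasDerivAt (fun t : ℝ => fderiv ℝ (unc g) (t, x))
        (fderiv ℝ (fderiv ℝ (unc g)) (0, x) (1, 0)) 0 :=
      HasFDerivAt.comp_hasDerivAt (l := fderiv ℝ (unc g)) (f := fun t : ℝ => (t, x)) (0 : ℝ)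
        (hD (0, x)).hasFDerivAt h0
    have h1 : HasDerivAt (fun t : ℝ => fderiv ℝ (unc g) (t, x) (0, h))
        (fderiv ℝ (fderiv ℝ (unc g)) (0, x) (1, 0) (0, h)) 0 := by
      simpa using h00.clm_apply (hasDerivAt_const (0 : ℝ) ((0 : ℝ), h))
    have h2 := (EuclideanSpace.proj i : EuclideanSpace ℝ (Fin 2) →L[ℝ] ℝ).hasFDerivAt.comp_hasDerivAt
      (0 : ℝ) h1
    rw [hv, hsymm.eq]
    exact h2
  have hdet := ((ht !₂[1, 0] 0).mul (ht !₂[0, 1] 1)).sub ((ht !₂[0, 1] 0).mul (ht !₂[1, 0] 1))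
  have hsq := hdet.pow 2
  have hconst : HasDerivAt (fun _ : ℝ => (1 : ℝ)) 0 0 := hasDerivAt_const _ _
  have heq := hsq.unique (hconst.congr_of_eventuallyEq (Eventually.of_forall fun t => by
    have := abs_det_jac hg hm t x
    rw [det_euclid_two] at this
    simp only [Pi.pow_apply, Pi.sub_apply, Pi.mul_apply]
    rw [← sq_abs, this, one_pow]))
  simp [jac_zero hg hm] at heq
  linarith

theorem exists_hamiltonian (hg : IsFlow m g) (hm : 2 ≤ m) :
    ∃ H : EuclideanSpace ℝ (Fin 2) → ℝ, ∀ x, HasFDerivAt H (area (vf g x)) x := by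
  have hv := (contDiff_vf hg hm).differentiable (by norm_num)
  obtain ⟨H, hH⟩ := convex_univ.exists_forall_hasFDerivAt_of_fderiv_symmetric isOpen_univ
    (ω := fun x => area (vf g x)) (area.differentiable.comp hv).differentiableOn (by
      intro a _ x y
      have h1 : fderiv ℝ (fun x => area (vf g x)) a = area.comp (fderiv ℝ (vf g) a) :=
        (area.hasFDerivAt.comp a (hv a).hasFDerivAt).fderiv
      have h2 := div_vf hg hm a
      have h3 : ∀ (z : EuclideanSpace ℝ (Fin 2)) (i : Fin 2), fderiv ℝ (vf g) a z i =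
          z 0 * fderiv ℝ (vf g) a !₂[1, 0] i + z 1 * fderiv ℝ (vf g) a !₂[0, 1] i := by
        intro z i
        conv_lhs => rw [euclid_decomp z, map_add, map_smul, map_smul]
        simp
      rw [h1]
      simp only [ContinuousLinearMap.comp_apply, area_apply]
      rw [h3 x 0, h3 x 1, h3 y 0, h3 y 1]
      linear_combination (x 0 * y 1 - y 0 * x 1) * h2)
  exact ⟨H, fun x => hH x (mem_univ _)⟩

theorem fixed_of_vf (hg : IsFlow m g) (hm : 2 ≤ m) {x : EuclideanSpace ℝ (Fin 2)}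
    (hx : vf g x = 0) (t : ℝ) : g t x = x := by
  have h := is_const_of_deriv_eq_zero (f := fun s => g s x)
    (fun s => (hasDerivAt_time' hg hm x s).differentiableAt)
    (fun s => by rw [(hasDerivAt_time' hg hm x s).deriv, hx, map_zero]) t 0
  rw [h, flow_zero hg]

variable {H : EuclideanSpace ℝ (Fin 2) → ℝ}

theorem ham_const (hg : IsFlow m g) (hm : 2 ≤ m) (hH : ∀ x, HasFDerivAt H (area (vf g x)) x)
    (x : EuclideanSpace ℝ (Fin 2)) (t : ℝ) : H (g t x) = H x := by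
  have h1 : ∀ s, HasDerivAt (fun s => H (g s x)) 0 s := fun s => by
    have := (hH (g s x)).comp_hasDerivAt s (hasDerivAt_time hg hm x s)
    rw [area_apply, mul_comm, sub_self] at this
    exact this
  have h := is_const_of_deriv_eq_zero (f := fun s => H (g s x))
    (fun s => (h1 s).differentiableAt) (fun s => (h1 s).deriv) t 0
  rw [h, flow_zero hg]

theorem ham_contDiff (hg : IsFlow m g) (hm : 2 ≤ m) (hH : ∀ x, HasFDerivAt H (area (vf g x)) x) :
    ContDiff ℝ 1 H := by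
  rw [contDiff_one_iff_fderiv]
  refine ⟨fun x => (hH x).differentiableAt, ?_⟩
  have : fderiv ℝ H = fun x => area (vf g x) := funext fun x => (hH x).fderiv
  rw [this]
  exact area.continuous.comp (contDiff_vf hg hm).continuous

theorem flow_box (hg : IsFlow m g) (hm : 2 ≤ m) (hH : ∀ x, HasFDerivAt H (area (vf g x)) x)
    {y : EuclideanSpace ℝ (Fin 2)} (hy : vf g y ≠ 0) :
    ∃ Θ : ℝ × ℝ → EuclideanSpace ℝ (Fin 2), ContDiffAt ℝ 1 Θ (0, H y) ∧
      (∀ s, Θ (s, H y) = g s y) ∧ ∀ ε > 0, ∀ᶠ z in 𝓝 y, ∃ s, |s| < ε ∧ z = Θ (s, H z) := by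
  set v := vf g y with hv
  set n : EuclideanSpace ℝ (Fin 2) := !₂[-(v 1), v 0] with hn
  have hpos : 0 < v 0 ^ 2 + v 1 ^ 2 := by
    by_contra hc
    have h1 : v 0 = 0 := by nlinarith [sq_nonneg (v 0), sq_nonneg (v 1)]
    have h2 : v 1 = 0 := by nlinarith [sq_nonneg (v 0), sq_nonneg (v 1)]
    apply hy
    ext i
    fin_cases i
    · simpa using h1
    · simpa using h2
  -- the transversal function
  have hline : ContDiff ℝ 1 fun r : ℝ => y + r • n :=
    contDiff_const.add (contDiff_id.smul contDiff_const)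
  have hline' : HasDerivAt (fun r : ℝ => y + r • n) n 0 := by
    simpa using ((hasDerivAt_id (0 : ℝ)).smul_const n).const_add y
  have hh : ContDiffAt ℝ 1 (fun r : ℝ => H (y + r • n)) 0 :=
    ((ham_contDiff hg hm hH).comp hline).contDiffAt
  have hh' : HasDerivAt (fun r : ℝ => H (y + r • n)) (v 0 ^ 2 + v 1 ^ 2) 0 := by
    have h1 := hH (y + (0 : ℝ) • n)
    have h2 := h1.comp_hasDerivAt (0 : ℝ) hline'
    have h3 : area (vf g (y + (0 : ℝ) • n)) n = v 0 ^ 2 + v 1 ^ 2 := by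
      rw [zero_smul, add_zero, area_apply, ← hv]
      simp [hn]
      ring
    rw [h3] at h2
    exact h2
  obtain ⟨e, he⟩ := exists_equiv_of_injective
    (ContinuousLinearMap.toSpanSingleton ℝ (v 0 ^ 2 + v 1 ^ 2)) (by
      intro r hr
      simpa [hpos.ne'] using hr) rfl
  have hh'' : HasFDerivAt (fun r : ℝ => H (y + r • n)) (e : ℝ →L[ℝ] ℝ) 0 := by
    rw [he]
    exact hh'.hasFDerivAt
  set ψ := hh.localInverse hh'' one_ne_zero with hψ
  have hψ1 : ContDiffAt ℝ 1 ψ (H y) := by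
    simpa using hh.to_localInverse hh'' one_ne_zero
  have hψ2 : ψ (H y) = 0 := by
    simpa using hh.localInverse_apply_image hh'' one_ne_zero
  have hψ3 : ∀ᶠ r in 𝓝 (0 : ℝ), ψ (H (y + r • n)) = r :=
    (hh.hasStrictFDerivAt' hh'' one_ne_zero).eventually_left_inverse
  -- the box
  set Φ : ℝ × ℝ → EuclideanSpace ℝ (Fin 2) := fun p => unc g (p.1, y + p.2 • n) with hΦ
  have hΦ1 : ContDiff ℝ 1 Φ :=
    ((unc_two hg hm).of_le (by norm_num)).comp (contDiff_fst.prodMk (hline.comp contDiff_snd))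
  have hΦ0 : Φ (0, 0) = y := by simp [hΦ, unc, flow_zero hg]
  have hΦd : ∀ s r : ℝ, fderiv ℝ Φ (0, 0) (s, r) = s • v + r • n := by
    intro s r
    have h1 : HasFDerivAt (fun p : ℝ × ℝ => (p.1, y + p.2 • n))
        ((ContinuousLinearMap.fst ℝ ℝ ℝ).prod ((ContinuousLinearMap.snd ℝ ℝ ℝ).smulRight n))
        (0, 0) :=
      hasFDerivAt_fst.prodMk ((hasFDerivAt_snd.smul_const n).const_add y)
    have h2 := (unc_diff hg hm (0, y + (0 : ℝ) • n)).hasFDerivAt.comp ((0, 0) : ℝ × ℝ) h1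
    have h3 : fderiv ℝ Φ (0, 0) = _ := h2.fderiv
    have h4 : fderiv ℝ (unc g) (0, y) (0, r • n) = r • n := by
      exact congrArg (fun A => A (r • n)) (jac_zero hg hm y)
    rw [h3, zero_smul, add_zero]
    simp only [ContinuousLinearMap.comp_apply, ContinuousLinearMap.prod_apply,
      ContinuousLinearMap.coe_fst', ContinuousLinearMap.smulRight_apply,
      ContinuousLinearMap.coe_snd']
    have h5 : ((s, r • n) : ℝ × EuclideanSpace ℝ (Fin 2)) = s • (1, 0) + (0, r • n) := by simp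
    rw [h5, map_add, map_smul, h4]
    rfl
  obtain ⟨e', he'⟩ := exists_equiv_of_injective (fderiv ℝ Φ (0, 0)) (by
    rintro ⟨s, r⟩ hsr
    rw [hΦd] at hsr
    have h1 := congrArg (fun z : EuclideanSpace ℝ (Fin 2) => z 0) hsr
    have h2 := congrArg (fun z : EuclideanSpace ℝ (Fin 2) => z 1) hsr
    simp [hn] at h1 h2
    have h3 : (v 0 ^ 2 + v 1 ^ 2) * s = 0 := by linear_combination v 0 * h1 + v 1 * h2
    have h4 : (v 0 ^ 2 + v 1 ^ 2) * r = 0 := by linear_combination v 0 * h2 - v 1 * h1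
    rw [mul_eq_zero] at h3 h4
    simp [h3.resolve_left hpos.ne', h4.resolve_left hpos.ne']) (by simp)
  have hmap : map Φ (𝓝 (0, 0)) = 𝓝 y := by
    have h1 : HasStrictFDerivAt Φ (e' : ℝ × ℝ →L[ℝ] EuclideanSpace ℝ (Fin 2)) (0, 0) := by
      rw [he']
      exact hΦ1.contDiffAt.hasStrictFDerivAt one_ne_zero
    rw [← hΦ0]
    exact h1.map_nhds_eq_of_equiv
  refine ⟨fun p => Φ (p.1, ψ p.2), ?_, fun s => ?_, fun ε hε => ?_⟩
  · exact hΦ1.contDiffAt.comp _ (contDiffAt_fst.prodMk (hψ1.comp (0, H y) contDiffAt_snd))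
  · simp [hψ2, hΦ, unc]
  · rw [← hmap, eventually_map]
    have h1 : ∀ᶠ p : ℝ × ℝ in 𝓝 (0, 0), |p.1| < ε :=
      continuous_fst.abs.continuousAt.eventually (gt_mem_nhds (by simpa using hε))
    have h2 : ∀ᶠ p : ℝ × ℝ in 𝓝 (0, 0), ψ (H (y + p.2 • n)) = p.2 :=
      (continuous_snd.tendsto ((0, 0) : ℝ × ℝ)).eventually hψ3
    filter_upwards [h1, h2] with p hp1 hp2
    refine ⟨p.1, hp1, ?_⟩
    have : H (Φ p) = H (y + p.2 • n) := ham_const hg hm hH _ _
    rw [this, hp2]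

theorem trapped_level (hg : IsFlow m g) (hm : 2 ≤ m) (hH : ∀ x, HasFDerivAt H (area (vf g x)) x)
    {x : EuclideanSpace ℝ (Fin 2)} (hx : x ∈ trapped g) :
    vf g x ≠ 0 ∧ H x ∈ H '' {z | vf g z = 0} := by
  refine ⟨fun h => hx.2 ?_, ?_⟩
  · refine (Bornology.isBounded_singleton (x := x)).subset ?_
    rintro _ ⟨t, -, rfl⟩
    exact fixed_of_vf hg hm h t
  obtain ⟨y, -, φ, hφ, hlim⟩ := tendsto_subseq_of_bounded hx.1 (x := fun n : ℕ => g n x)
    fun n => ⟨n, Nat.cast_nonneg n, rfl⟩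
  have hHy : H y = H x := by
    have h1 := ((ham_contDiff hg hm hH).continuous.tendsto y).comp hlim
    have h2 : (H ∘ (fun n : ℕ => g n x) ∘ φ) = fun _ => H x :=
      funext fun k => ham_const hg hm hH x _
    rw [h2] at h1
    exact tendsto_nhds_unique h1 tendsto_const_nhds
  by_cases hy : vf g y = 0
  · exact ⟨y, hy, hHy⟩
  exfalso
  obtain ⟨Θ, -, hΘ2, hΘ3⟩ := flow_box hg hm hH hy
  obtain ⟨k, hk⟩ := eventually_atTop.1 (hlim.eventually (hΘ3 (1 / 3) (by norm_num)))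
  have key : ∀ j ≥ k, ∃ s : ℝ, |s| < 1 / 3 ∧ g (-s + φ j) x = y := by
    intro j hj
    obtain ⟨s, hs, h⟩ := hk j hj
    refine ⟨s, hs, ?_⟩
    simp only [Function.comp] at h
    rw [ham_const hg hm hH, ← hHy, hΘ2] at h
    rw [flow_add hg, h, ← flow_add hg, neg_add_cancel, flow_zero hg]
  obtain ⟨s1, hs1, h1⟩ := key k le_rfl
  obtain ⟨s2, hs2, h2⟩ := key (k + 1) (by omega)
  have hlt : (φ k : ℝ) + 1 ≤ φ (k + 1) := by exact_mod_cast hφ (Nat.lt_succ_self k)
  set T := -(-s1 + φ k) + (-s2 + φ (k + 1)) with hT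
  have hT0 : 0 < T := by
    rw [abs_lt] at hs1 hs2
    linarith
  have hper : g T x = x := by
    rw [hT, flow_add hg, h2, ← h1, ← flow_add hg, neg_add_cancel, flow_zero hg]
  have hpern : ∀ n : ℕ, g (n * T) x = x := by
    intro n
    induction n with
    | zero => simp [flow_zero hg]
    | succ n ih =>
      push_cast
      rw [add_mul, one_mul, flow_add hg, hper, ih]
  refine hx.2 (hx.1.subset ?_)
  rintro _ ⟨t, -, rfl⟩
  obtain ⟨n, hn⟩ := exists_nat_ge (-t / T)
  rw [div_le_iff₀ hT0] at hn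
  exact ⟨t + n * T, by linarith, by rw [flow_add hg, hpern]⟩

theorem dimH_critical_values (hg : IsFlow m g) (hm : 2 ≤ m)
    (hH : ∀ x, HasFDerivAt H (area (vf g x)) x) :
    dimH (H '' {z | vf g z = 0}) ≤ 2 / ((m : ℝ≥0∞) + 1) := by
  refine dimH_image_le_of_local fun x₀ _ => ?_
  obtain ⟨δ, hδ, hδ'⟩ := Metric.continuousAt_iff.1
    ((continuous_jac hg hm).continuousAt (x := (0, x₀))) (1 / 2) (by norm_num)
  refine ⟨{z | vf g z = 0} ∩ ball x₀ δ, inter_mem_nhdsWithin _ (ball_mem_nhds _ hδ), ?_⟩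
  refine le_trans (dimH_mono (image_mono ?_)) (sard_plane (U := ball x₀ δ) isOpen_ball m
    (fun y => g (δ / 2) y - y) (fun y _ => ?_) H (fun y _ => (hH y).differentiableAt)
    (C := 8 / δ) (by positivity) fun y hy => ?_)
  · intro z hz
    exact ⟨hz.2, by simp [fixed_of_vf hg hm hz.1]⟩
  · exact ((hg.2.2.2.comp (contDiff_const.prodMk contDiff_id)).sub contDiff_id).contDiffAt
  rw [(hH y).fderiv]
  refine (norm_area_le _).trans ?_
  have h1 := norm_image_sub_le_of_norm_deriv_le_segment' (f := fun t => g t y - t • vf g y)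
    (f' := fun t => jac g t y (vf g y) - vf g y) (a := 0) (b := δ / 2) (C := 1 / 2 * ‖vf g y‖)
    (fun t _ => by
      have := (hasDerivAt_time' hg hm y t).sub ((hasDerivAt_id t).smul_const (vf g y))
      rw [one_smul] at this
      exact this.hasDerivWithinAt)
    (fun t ht => by
      have h2 := hδ' (x := (t, y)) (by
        rw [Prod.dist_eq]
        refine max_lt ?_ hy
        rw [Real.dist_eq, sub_zero, abs_of_nonneg ht.1]
        linarith [ht.2])
      simp only [jac_zero hg hm, dist_eq_norm] at h2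
      calc ‖jac g t y (vf g y) - vf g y‖
          = ‖(jac g t y - ContinuousLinearMap.id ℝ (EuclideanSpace ℝ (Fin 2))) (vf g y)‖ := by
            simp
        _ ≤ _ := (ContinuousLinearMap.le_opNorm _ _).trans
            (mul_le_mul_of_nonneg_right h2.le (norm_nonneg _)))
    (δ / 2) ⟨by positivity, le_rfl⟩
  simp only [flow_zero hg, zero_smul, sub_zero] at h1
  have h3 : ‖(δ / 2) • vf g y‖ ≤ ‖g (δ / 2) y - y‖ + ‖g (δ / 2) y - (δ / 2) • vf g y - y‖ := by
    have : (δ / 2) • vf g y = (g (δ / 2) y - y) - (g (δ / 2) y - (δ / 2) • vf g y - y) := by abel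
    conv_lhs => rw [this]
    exact norm_sub_le _ _
  rw [norm_smul, Real.norm_of_nonneg (by positivity)] at h3
  rw [div_mul_eq_mul_div, le_div_iff₀ hδ]
  nlinarith [norm_nonneg (vf g y)]

end

theorem flow_upper (m : ℕ) (hm : 1 ≤ m) (g) (hg : IsFlow m g) :
    dimH (trapped g) ≤ 1 + 2 / ((m : ENNReal) + 1) := by
  rcases hm.eq_or_lt with rfl | hm2
  · refine (dimH_mono (subset_univ _)).trans ?_
    rw [Real.dimH_univ_eq_finrank]
    have : (2 : ℝ≥0∞) / ((1 : ℕ) + 1) = 1 := by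
      rw [Nat.cast_one, one_add_one_eq_two, ENNReal.div_self (by norm_num) (by norm_num)]
    rw [this, one_add_one_eq_two]
    simp
  obtain ⟨H, hH⟩ := exists_hamiltonian hg hm2
  refine dimH_le_of_local fun y hy => ?_
  obtain ⟨Θ, hΘ1, -, hΘ3⟩ := flow_box hg hm2 hH (trapped_level hg hm2 hH hy).1
  have hΘ' : ContDiffAt ℝ 1 (fun p : ℝ × ℝ => Θ (p.1 - 1 / 2, p.2)) (1 / 2, H y) := by
    refine ContDiffAt.comp (g := Θ) _ (by simpa using hΘ1) ?_
    exact (contDiffAt_fst.sub contDiffAt_const).prodMk contDiffAt_snd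
  obtain ⟨K, N, hN, hK⟩ := hΘ'.exists_lipschitzOnWith
  obtain ⟨ε, hε, hεN⟩ := Metric.mem_nhds_iff.1 hN
  have h1 : ∀ᶠ z in 𝓝 y, dist (H z) (H y) < ε :=
    Metric.tendsto_nhds.1 ((ham_contDiff hg hm2 hH).continuous.tendsto y) ε hε
  refine ⟨(fun p : ℝ × ℝ => Θ (p.1 - 1 / 2, p.2)) ''
    (N ∩ Icc (0 : ℝ) 1 ×ˢ (H '' {z | vf g z = 0})), ?_, ?_⟩
  · rw [mem_nhdsWithin_iff_eventually]
    filter_upwards [h1, hΘ3 (min ε (1 / 2)) (by positivity)] with z hz1 hz2 hz
    obtain ⟨s, hs, hz3⟩ := hz2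
    rw [lt_min_iff] at hs
    refine ⟨(s + 1 / 2, H z), ⟨hεN ?_, ?_, (trapped_level hg hm2 hH hz).2⟩, by simp [← hz3]⟩
    · rw [mem_ball, Prod.dist_eq]
      refine max_lt ?_ hz1
      simpa [Real.dist_eq] using hs.1
    · have := abs_lt.1 hs.2
      constructor <;> linarith
  · refine (hK.mono inter_subset_left).dimH_image_le.trans ((dimH_mono inter_subset_right).trans
      ((dimH_Icc_prod_le _).trans ?_))
    gcongr
    exact dimH_critical_values hg hm2 hH

end Pool.Agent.MP_6357da_an.H36
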