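import Pool.Agent.MP_6357da_an.H36.DimTools

/-!
A Sard type bound in the plane.
-/

set_option autoImplicit false

open Filter Topology Set MeasureTheory Metric
open scoped ENNReal NNReal

namespace Pool.Agent.MP_6357da_an.H36

theorem exists_equiv_of_injective {E F : Type} [NormedAddCommGroup E] [NormedSpace ℝ E]
    [NormedAddCommGroup F] [NormedSpace ℝ F] [FiniteDimensional ℝ E] [FiniteDimensional ℝ F]
    (A : E →L[ℝ] F) (hA : ∀ x, A x = 0 → x = 0) (hd : Module.finrank ℝ E = Module.finrank ℝ F) :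
    ∃ e : E ≃L[ℝ] F, (e : E →L[ℝ] F) = A := by
  have hinj : Function.Injective (A : E →ₗ[ℝ] F) := (injective_iff_map_eq_zero _).2 hA
  refine ⟨(LinearMap.linearEquivOfInjective (A : E →ₗ[ℝ] F) hinj hd).toContinuousLinearEquiv, ?_⟩
  ext x
  simp

theorem one_div_le_two_div {a m : ℕ} (h : m + 1 ≤ 2 * (a + 1)) :
    (1 : ℝ≥0∞) / ((a : ℝ≥0∞) + 1) ≤ 2 / ((m : ℝ≥0∞) + 1) := by
  have h1 : (1 : ℝ≥0∞) / ((a : ℝ≥0∞) + 1) = 2 / (2 * ((a : ℝ≥0∞) + 1)) := by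
    rw [← ENNReal.mul_div_mul_left 1 _ (c := 2) (by norm_num) (by norm_num), mul_one]
  rw [h1]
  refine ENNReal.div_le_div_left ?_ _
  exact_mod_cast h

theorem euclid_decomp (x : EuclideanSpace ℝ (Fin 2)) :
    x = x 0 • (!₂[1, 0] : EuclideanSpace ℝ (Fin 2)) + x 1 • !₂[0, 1] := by
  ext i
  fin_cases i <;> simp

/-- The zero set of a submersion lies locally on a curve. -/
theorem exists_curve {φ : EuclideanSpace ℝ (Fin 2) → ℝ} {x₀ : EuclideanSpace ℝ (Fin 2)} {k : ℕ}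
    (hk : 1 ≤ k) (hφ : ContDiffAt ℝ k φ x₀) (h0 : φ x₀ = 0) (hd : fderiv ℝ φ x₀ ≠ 0) :
    ∃ (γ : ℝ → EuclideanSpace ℝ (Fin 2)) (p : EuclideanSpace ℝ (Fin 2) →L[ℝ] ℝ),
      ContDiffAt ℝ k γ (p x₀) ∧ ∀ᶠ x in 𝓝 x₀, φ x = 0 → γ (p x) = x := by
  set L := fderiv ℝ φ x₀ with hL
  set a := L !₂[1, 0] with ha
  set b := L !₂[0, 1] with hb
  have hLx : ∀ x, L x = a * x 0 + b * x 1 := by
    intro x
    conv_lhs => rw [euclid_decomp x]
    rw [map_add, map_smul, map_smul, ← ha, ← hb]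
    simp only [smul_eq_mul]
    ring
  have hab : 0 < a ^ 2 + b ^ 2 := by
    by_contra hc
    have h1 : a = 0 := by nlinarith [sq_nonneg a, sq_nonneg b]
    have h2 : b = 0 := by nlinarith [sq_nonneg a, sq_nonneg b]
    apply hd
    ext x
    rw [hLx, h1, h2]
    simp
  set p : EuclideanSpace ℝ (Fin 2) →L[ℝ] ℝ :=
    (-b) • EuclideanSpace.proj 0 + a • EuclideanSpace.proj 1 with hp
  have hpx : ∀ x, p x = -b * x 0 + a * x 1 := fun x => by simp [hp]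
  obtain ⟨e, he⟩ := exists_equiv_of_injective (L.prod p) (by
    intro x hx
    have h1 : L x = 0 := congrArg Prod.fst hx
    have h2 : p x = 0 := congrArg Prod.snd hx
    rw [hLx] at h1
    rw [hpx] at h2
    have h3 : (a ^ 2 + b ^ 2) * x 0 = 0 := by linear_combination a * h1 - b * h2
    have h4 : (a ^ 2 + b ^ 2) * x 1 = 0 := by linear_combination b * h1 + a * h2
    ext i
    fin_cases i
    · simpa [hab.ne'] using h3
    · simpa [hab.ne'] using h4) (by simp)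
  have hk0 : (k : WithTop ℕ∞) ≠ 0 := by exact_mod_cast (by omega : k ≠ 0)
  have hΨ : ContDiffAt ℝ k (fun x => (φ x, p x)) x₀ := hφ.prodMk p.contDiff.contDiffAt
  have hΨ' : HasFDerivAt (fun x => (φ x, p x)) (e : EuclideanSpace ℝ (Fin 2) →L[ℝ] ℝ × ℝ) x₀ := by
    rw [he]
    exact (hφ.differentiableAt hk0).hasFDerivAt.prodMk p.hasFDerivAt
  refine ⟨fun s => hΨ.localInverse hΨ' hk0 (0, s), p, ?_, ?_⟩
  · have h1 := hΨ.to_localInverse hΨ' hk0
    rw [h0] at h1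
    exact h1.comp (p x₀) (contDiffAt_const.prodMk contDiffAt_id)
  · filter_upwards [(hΨ.hasStrictFDerivAt' hΨ' hk0).eventually_left_inverse] with x hx hx0
    rw [hx0] at hx
    exact hx

theorem sard_plane {G : Type} [NormedAddCommGroup G] [NormedSpace ℝ G]
    {U : Set (EuclideanSpace ℝ (Fin 2))} (hU : IsOpen U) (m : ℕ)
    (w : EuclideanSpace ℝ (Fin 2) → G) (hw : ∀ x ∈ U, ContDiffAt ℝ m w x)
    (H : EuclideanSpace ℝ (Fin 2) → ℝ) (hH : ∀ x ∈ U, DifferentiableAt ℝ H x) {C : ℝ}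
    (hC0 : 0 ≤ C) (hC : ∀ x ∈ U, ‖fderiv ℝ H x‖ ≤ C * ‖w x‖) :
    dimH (H '' {x ∈ U | w x = 0}) ≤ 2 / ((m : ℝ≥0∞) + 1) := by
  have hsub : {x ∈ U | w x = 0} ⊆ {x ∈ U | ∀ i < m, iteratedFDeriv ℝ i w x = 0} ∪
      ⋃ j, {x ∈ U | j + 1 < m ∧ (∀ i < j + 1, iteratedFDeriv ℝ i w x = 0) ∧
        iteratedFDeriv ℝ (j + 1) w x ≠ 0} := by
    intro x hx
    rcases flat_cases w m hx.2 with h1 | ⟨j, h1⟩
    · exact Or.inl ⟨hx.1, h1⟩
    · exact Or.inr (mem_iUnion.2 ⟨j, hx.1, h1⟩)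
  refine (dimH_mono (image_mono hsub)).trans ?_
  rw [image_union, dimH_union, image_iUnion, dimH_iUnion]
  refine max_le ?_ (iSup_le fun j => ?_)
  · refine (dimH_image_flat hU m w hw H hH hC0 hC (fun x hx => hx.1) (fun x hx => hx.2)).trans ?_
    gcongr
    refine (dimH_mono (subset_univ _)).trans ?_
    rw [Real.dimH_univ_eq_finrank]
    simp
  refine dimH_image_le_of_local fun x₀ hx₀ => ?_
  obtain ⟨hxU, hj, h0, h1⟩ := hx₀
  obtain ⟨k, hk⟩ : ∃ k, m = k + j := ⟨m - j, by omega⟩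
  have hk1 : 1 ≤ k := by omega
  have hk0 : (k : WithTop ℕ∞) ≠ 0 := by exact_mod_cast (by omega : k ≠ 0)
  have hW : ContDiffAt ℝ k (iteratedFDeriv ℝ j w) x₀ :=
    (hw x₀ hxU).iteratedFDeriv_right (by exact_mod_cast hk.ge)
  have hW' : fderiv ℝ (iteratedFDeriv ℝ j w) x₀ ≠ 0 := by
    intro h2
    apply h1
    rw [← norm_eq_zero, ← norm_fderiv_iteratedFDeriv, h2]
    exact ContinuousLinearMap.opNorm_zero
  obtain ⟨e, he⟩ : ∃ e, fderiv ℝ (iteratedFDeriv ℝ j w) x₀ e ≠ 0 := by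
    by_contra hc
    push Not at hc
    exact hW' (ContinuousLinearMap.ext hc)
  obtain ⟨ℓ, hℓ⟩ := SeparatingDual.exists_ne_zero (R := ℝ) he
  have hφ : ContDiffAt ℝ k (fun x => ℓ (iteratedFDeriv ℝ j w x)) x₀ :=
    ℓ.contDiff.contDiffAt.comp x₀ hW
  obtain ⟨γ, p, hγ, hγp⟩ := exists_curve hk1 hφ (by rw [h0 j (by omega), map_zero]) (by
    have := (ℓ.hasFDerivAt.comp x₀ (hW.differentiableAt hk0).hasFDerivAt).fderiv
    intro h2
    apply hℓ
    have h3 : fderiv ℝ (ℓ ∘ iteratedFDeriv ℝ j w) x₀ = 0 := h2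
    rw [this] at h3
    exact congrArg (fun A => A e) h3)
  have hγ0 : γ (p x₀) = x₀ := hγp.self_of_nhds (by rw [h0 j (by omega), map_zero])
  have hJ : ∀ᶠ s in 𝓝 (p x₀), ContDiffAt ℝ k γ s ∧ γ s ∈ U ∧
      ‖fderiv ℝ γ s‖ < ‖fderiv ℝ γ (p x₀)‖ + 1 := by
    refine (hγ.eventually (by simp)).and (Eventually.and ?_ ?_)
    · exact hγ.continuousAt.eventually (by rw [hγ0]; exact hU.mem_nhds hxU)
    · exact (hγ.continuousAt_fderiv hk0).norm.eventually (gt_mem_nhds (lt_add_one _))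
  obtain ⟨J, hJ1, hJ2, hJ3⟩ := _root_.eventually_nhds_iff.1 hJ
  set T := {x ∈ U | j + 1 < m ∧ (∀ i < j + 1, iteratedFDeriv ℝ i w x = 0) ∧
        iteratedFDeriv ℝ (j + 1) w x ≠ 0} with hT
  refine ⟨{x ∈ T | p x ∈ J ∧ γ (p x) = x}, ?_, ?_⟩
  · rw [mem_nhdsWithin_iff_eventually]
    filter_upwards [hγp, p.continuous.continuousAt.eventually (hJ2.mem_nhds hJ3)] with x h2 h3 hx
    exact ⟨hx, h3, h2 (by rw [hx.2.2.1 j (by omega), map_zero])⟩
  rcases le_total (m + 1) (2 * (j + 1 + 1)) with hcase | hcase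
  · refine (dimH_image_flat hU (j + 1) w (fun x hx => (hw x hx).of_le
      (by exact_mod_cast hj.le)) H hH hC0 hC (fun x hx => hx.1.1) (fun x hx => hx.1.2.2.1)).trans ?_
    refine le_trans ?_ (one_div_le_two_div hcase)
    gcongr
    have h2 : {x ∈ T | p x ∈ J ∧ γ (p x) = x} ⊆ γ '' J := fun x hx => ⟨p x, hx.2.1, hx.2.2⟩
    refine (dimH_mono h2).trans ((dimH_image_le_of_locally_lipschitzOn fun s hs => ?_).trans
      ((dimH_mono (subset_univ _)).trans Real.dimH_univ.le))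
    obtain ⟨K, t, ht, hK⟩ := ((hJ1 s hs).1.of_le
      (by exact_mod_cast hk1 : (1 : WithTop ℕ∞) ≤ k)).exists_lipschitzOnWith
    exact ⟨K, t, mem_nhdsWithin_of_mem_nhds ht, hK⟩
  · have h2 : H '' {x ∈ T | p x ∈ J ∧ γ (p x) = x} ⊆ (H ∘ γ) '' {s ∈ J | (w ∘ γ) s = 0} := by
      rintro _ ⟨x, hx, rfl⟩
      refine ⟨p x, ⟨hx.2.1, ?_⟩, by simp [hx.2.2]⟩
      have := hx.1.2.2.1 0 (by omega)
      rw [← norm_eq_zero, norm_iteratedFDeriv_zero, norm_eq_zero] at this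
      simp [hx.2.2, this]
    refine (dimH_mono h2).trans ((dimH_image_zero_one hJ2 k (w ∘ γ)
      (fun s hs => ((hw _ (hJ1 s hs).2.1).of_le (by exact_mod_cast (by omega : k ≤ m))).comp s
        (hJ1 s hs).1) (H ∘ γ)
      (fun s hs => (hH _ (hJ1 s hs).2.1).comp s ((hJ1 s hs).1.differentiableAt hk0))
      (C := C * (‖fderiv ℝ γ (p x₀)‖ + 1)) (by positivity) fun s hs => ?_).trans
      (one_div_le_two_div (by omega)))
    rw [fderiv_comp s (hH _ (hJ1 s hs).2.1) ((hJ1 s hs).1.differentiableAt hk0)]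
    refine (ContinuousLinearMap.opNorm_comp_le _ _).trans ?_
    calc _ ≤ (C * ‖w (γ s)‖) * (‖fderiv ℝ γ (p x₀)‖ + 1) :=
          mul_le_mul (hC _ (hJ1 s hs).2.1) (hJ1 s hs).2.2.le (norm_nonneg _) (by positivity)
      _ = _ := by simp only [Function.comp]; ring

end Pool.Agent.MP_6357da_an.H36
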